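import Pool.Agent.T9h35.NS.Window
import Pool.Agent.T9h36.SQ.MainAll

/-!
# Nondeterministic circuits for unsatisfiability: a window of the chain
-/

set_option autoImplicit false

namespace Pool.Agent.T9h35.NS

open Finset Pool.Agent.T9h35.Sharp Pool.Agent.T9h35.NearBF Pool.Agent.T9h36.SN
open Pool.Agent.T9h34 (Circuit)
open Pool.Agent.T9h16 (Leaf)
open Pool.Agent.T9h36.SQ (GG)

variable {n g b r₀ : ℕ}

theorem reads_dual_eq (C : Circuit (Clause n)) (F F' : Finset (Clause n))
    (h : C.reads (indicator F) = C.reads (indicator F')) :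
    (dual C).reads (fun c => !(indicator F c)) = (dual C).reads (fun c => !(indicator F' c)) := by
  by_contra hcon
  exact reads_ne_dual C _ _ hcon h

theorem core_window {m : ℕ} (S : Cut n g (m + 1) b r₀)
    (hb : 1 ≤ b) (hm : 2 ≤ m) (r : ℕ) (hr : 1 ≤ r)
    (hκ : 2 * (m + 1) * (2 * m * (2 * m * (m * r))) ≤ 2 ^ b) (C : Circuit (Clause n))
    (sound : ∀ F ⊆ S.clauses, ¬ Unsat F → C.eval (indicator F) = false)
    (i h : ℕ) (hih : i + h ≤ 2 ^ g) :
    prob (fun ω : Om g m b => C.eval (indicator (GG S ω (i + h))) = true ∧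
      ∀ j < h, C.reads (indicator (GG S ω (i + j))) = C.reads (indicator (GG S ω (i + j + 1)))) ≤
      (((((C.size + C.numReads + 1) * (2 ^ (m + 1) * (2 * m * (m * r)) ^ m) ^ 2 : ℕ) : ℝ) /
          ((2 ^ b : ℕ) : ℝ) ^ (m + 1) +
        (((3 * (C.size + C.numReads + 1) + 1) * NS (Vx (m + 1) (2 ^ b)) m : ℕ) : ℝ) / 2 ^ r)) ^ h
    := by
  classical
  obtain ⟨N, hN⟩ : ∃ N, N = C.size + C.numReads + 1 := ⟨_, rfl⟩
  rw [← hN]
  obtain ⟨δ, hδ⟩ : ∃ δ : ℝ, δ = ((N * (2 ^ (m + 1) * (2 * m * (m * r)) ^ m) ^ 2 : ℕ) : ℝ) /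
          ((2 ^ b : ℕ) : ℝ) ^ (m + 1) +
        (((3 * N + 1) * NS (Vx (m + 1) (2 ^ b)) m : ℕ) : ℝ) / 2 ^ r := ⟨_, rfl⟩
  rw [← hδ]
  have hδ0 : 0 ≤ δ := by
    rw [hδ]
    positivity
  obtain ⟨X, hX⟩ : ∃ X : ((Fin g → Bool) → Set (EE (m + 1) (2 ^ b))) → Clause n → Bool,
      X = fun y c => !(indicator (S.formula y) c) := ⟨_, rfl⟩
  have heval : ∀ y, (dual C).eval (X y) = !(C.eval (indicator (S.formula y))) := by
    intro y
    rw [hX]
    exact eval_dual C _
  have hmono : ∀ y y' : (Fin g → Bool) → Set (EE (m + 1) (2 ^ b)), (∀ i, y i ⊆ y' i) →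
      ∀ a, X y a = true → X y' a = true := by
    intro y y' hyy a ha
    rw [hX] at ha ⊢
    simp only [indicator, Bool.not_eq_true', decide_eq_false_iff_not] at ha ⊢
    exact fun h => ha (S.formula_anti hyy h)
  have : Nonempty (Fin m) := ⟨⟨0, by omega⟩⟩
  have hcard : Fintype.card (Fin g → Bool) = 2 ^ g := by
    rw [Fintype.card_fun, Fintype.card_bool, Fintype.card_fin]
  have hw := window (ι := Fin g → Bool) (E := EE (m + 1) (2 ^ b))
    (K := Vx (m + 1) (2 ^ b) → Fin m) (T := Fin (m + 1) → Fin (2 ^ b)) (Λ := Clause n)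
    negG posG N δ hδ0 (by
      intro D hD hDs x hleaf
      have := mono_advantage r N hm hr Nat.one_le_two_pow hκ D hD hDs x hleaf
      have e1 : (Fintype.card (Fin (m + 1) → Fin (2 ^ b)) : ℝ) = ((2 ^ b : ℕ) : ℝ) ^ (m + 1) := by
        rw [Fintype.card_fun, Fintype.card_fin, Fintype.card_fin]
        push_cast
        rfl
      have e2 : (Fintype.card (Vx (m + 1) (2 ^ b) → Fin m) : ℝ) =
          (m : ℝ) ^ Fintype.card (Vx (m + 1) (2 ^ b)) := by
        rw [Fintype.card_fun, Fintype.card_fin]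
        push_cast
        rfl
      rw [e1, e2, hδ]
      linarith) (dual C) (by rw [size_dual, numReads_dual, ← hN]) X hmono (by
      intro c
      rw [hX]
      exact S.leaf hb c) (by
      intro y β t
      rw [heval, sound _ (S.formula_subset _), Bool.not_false]
      intro hun
      have h1 := (S.unsat_formula _).1 hun β
      apply h1
      refine ⟨t, ?_⟩
      rw [Function.update_self]) i h (by rw [hcard]; exact hih)
  have hpos : (0 : ℝ) < Fintype.card (Om g m b) := by exact_mod_cast Fintype.card_pos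
  rw [prob_eq, div_le_iff₀ hpos]
  refine le_trans (sum_le_sum fun ω _ => ?_) hw
  by_cases h1 : C.eval (indicator (GG S ω (i + h))) = true ∧
      ∀ j < h, C.reads (indicator (GG S ω (i + j))) = C.reads (indicator (GG S ω (i + j + 1)))
  · rw [if_pos h1, if_pos]
    refine ⟨?_, ?_⟩
    · rw [heval]
      have := h1.1
      rw [GG] at this
      rw [this]
      rfl
    · intro j hj
      have := h1.2 j hj
      rw [hX]
      exact reads_dual_eq C _ _ this
  · rw [if_neg h1]
    split_ifs <;> norm_num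

end Pool.Agent.T9h35.NS
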