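import Pool.Agent.T9h35.NS.Main

/-!
# A family of circuits which accepts every unsatisfiable formula
-/

set_option autoImplicit false

namespace Pool.Agent.T9h35.NS

open Finset Pool.Agent.T9h36.SN
open Pool.Agent.T9h34 (Circuit)

theorem changes_le_prod {ι : Type} (C : Circuit ι) (lev : ℕ → ℕ) (hl : IsLevel C lev)
    (x : ℕ → ι → Bool) (hx : ∀ i e, x (i + 1) e = true → x i e = true) (M : ℕ) :
    open Classical in
    ((range M).filter fun i => C.reads (x i) ≠ C.reads (x (i + 1))).card + 1 ≤
      levelProduct C lev := by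
  classical
  obtain ⟨φ, h1, h2⟩ := exists_consecutive x C.reads M
  have hanti : ∀ i d, ∀ e, x (i + d) e = true → x i e = true := by
    intro i d
    induction d with
    | zero => exact fun e he => he
    | succ d ih => exact fun e he => ih e (hx _ e he)
  refine changes_le_level' C lev hl (fun i => x (φ i)) ?_ _ ?_
  · intro i e he
    obtain ⟨d, hd⟩ := Nat.exists_eq_add_of_le (h1 (Nat.le_succ i))
    change x (φ (i + 1)) e = true at he
    rw [Nat.succ_eq_add_one] at hd
    rw [hd] at he
    exact hanti _ d e he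
  · intro i hi
    refine h2 i ?_
    convert hi

theorem sum_blocks (f : ℕ → ℝ) (q h : ℕ) :
    ∑ a ∈ range q, ∑ j ∈ range h, f (a * h + j) = ∑ i ∈ range (q * h), f i := by
  induction q with
  | zero => simp
  | succ q ih =>
    rw [sum_range_succ, ih, Nat.succ_mul, sum_range_add]

theorem cover {Ω : Type} [Fintype Ω] [Nonempty Ω] {n M h T : ℕ} (p : ℝ)
    (G : Ω → ℕ → Finset (Clause n)) (U : Type) [Fintype U] (D : U → Circuit (Clause n))
    (h1 : 1 ≤ h) (hM : h ≤ M)
    (win : ∀ u a, a + h ≤ M → prob (fun ω => (D u).eval (indicator (G ω (a + h))) = true ∧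
      ∀ j < h, (D u).reads (indicator (G ω (a + j))) =
        (D u).reads (indicator (G ω (a + j + 1)))) ≤ p)
    (acc : ∀ ω i, ∃ u, (D u).eval (indicator (G ω i)) = true)
    (chg : ∀ u ω, ∃ s : Finset ℕ, s.card ≤ T ∧ ∀ i < M, (D u).reads (indicator (G ω i)) ≠
      (D u).reads (indicator (G ω (i + 1))) → i ∈ s) :
    1 ≤ Fintype.card U * (p + 2 * h * T / M) := by
  classical
  obtain ⟨q, hq⟩ : ∃ q, q = M / h := ⟨_, rfl⟩
  have hqh : q * h ≤ M := by
    rw [hq]
    exact Nat.div_mul_le_self _ _
  have hq1 : 1 ≤ q := by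
    rw [hq]
    exact (Nat.le_div_iff_mul_le (by omega)).2 (by omega)
  have hMq : M ≤ 2 * h * q := by
    have := Nat.lt_mul_div_succ M (show 0 < h by omega)
    rw [← hq] at this
    nlinarith
  have hΩ : (0 : ℝ) < Fintype.card Ω := by exact_mod_cast Fintype.card_pos
  obtain ⟨E, hE⟩ : ∃ E : U → ℕ → Ω → ℝ, E = fun u a ω =>
      if ((D u).eval (indicator (G ω (a * h + h))) = true ∧
      ∀ j < h, (D u).reads (indicator (G ω (a * h + j))) =
        (D u).reads (indicator (G ω (a * h + j + 1)))) then 1 else 0 := ⟨_, rfl⟩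
  obtain ⟨c, hc⟩ : ∃ c : U → Ω → ℕ → ℝ, c = fun u ω i =>
      if (D u).reads (indicator (G ω i)) ≠ (D u).reads (indicator (G ω (i + 1)))
        then 1 else 0 := ⟨_, rfl⟩
  have hE0 : ∀ u a ω, 0 ≤ E u a ω := by
    intro u a ω
    rw [hE]
    dsimp only
    split_ifs <;> norm_num
  have hc0 : ∀ u ω i, 0 ≤ c u ω i := by
    intro u ω i
    rw [hc]
    dsimp only
    split_ifs <;> norm_num
  -- one window
  have hone : ∀ ω, ∀ a, (1 : ℝ) ≤ ∑ u : U, (E u a ω + ∑ j ∈ range h, c u ω (a * h + j)) := by
    intro ω a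
    obtain ⟨u, hu⟩ := acc ω (a * h + h)
    have h2 : (1 : ℝ) ≤ E u a ω + ∑ j ∈ range h, c u ω (a * h + j) := by
      by_cases h3 : ∀ j < h, (D u).reads (indicator (G ω (a * h + j))) =
        (D u).reads (indicator (G ω (a * h + j + 1)))
      · have h4 : E u a ω = 1 := by
          rw [hE]
          dsimp only
          rw [if_pos ⟨hu, h3⟩]
        rw [h4]
        have : 0 ≤ ∑ j ∈ range h, c u ω (a * h + j) := sum_nonneg fun j _ => hc0 _ _ _
        linarith
      · push Not at h3
        obtain ⟨j, hj, h3⟩ := h3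
        have h4 : c u ω (a * h + j) = 1 := by
          rw [hc]
          dsimp only
          rw [if_pos h3]
        have h5 : c u ω (a * h + j) ≤ ∑ j ∈ range h, c u ω (a * h + j) :=
          single_le_sum (f := fun j => c u ω (a * h + j)) (fun j _ => hc0 _ _ _)
            (mem_range.2 hj)
        have := hE0 u a ω
        linarith
    refine h2.trans ?_
    exact single_le_sum (f := fun u => E u a ω + ∑ j ∈ range h, c u ω (a * h + j))
      (fun u _ => add_nonneg (hE0 _ _ _) (sum_nonneg fun j _ => hc0 _ _ _)) (mem_univ u)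
  -- the sum over all windows
  have hsum : (Fintype.card Ω : ℝ) * q ≤
      ∑ ω : Ω, ∑ a ∈ range q, ∑ u : U, (E u a ω + ∑ j ∈ range h, c u ω (a * h + j)) := by
    calc (Fintype.card Ω : ℝ) * q = ∑ _ω : Ω, ∑ _a ∈ range q, (1 : ℝ) := by simp
      _ ≤ _ := sum_le_sum fun ω _ => sum_le_sum fun a _ => hone ω a
  have hEs : ∀ u, ∀ a ∈ range q, ∑ ω : Ω, E u a ω ≤ p * Fintype.card Ω := by
    intro u a ha
    have h2 := win u (a * h) (by
      have : a + 1 ≤ q := mem_range.1 ha
      calc a * h + h = (a + 1) * h := by ring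
        _ ≤ q * h := Nat.mul_le_mul_right _ this
        _ ≤ M := hqh)
    rw [prob_eq, div_le_iff₀ hΩ] at h2
    rw [hE]
    exact h2
  have hcs : ∀ u ω, ∑ a ∈ range q, ∑ j ∈ range h, c u ω (a * h + j) ≤ T := by
    intro u ω
    rw [sum_blocks (c u ω)]
    obtain ⟨s, hs1, hs2⟩ := chg u ω
    calc ∑ i ∈ range (q * h), c u ω i ≤ ∑ i ∈ range M, c u ω i :=
          sum_le_sum_of_subset_of_nonneg (range_subset_range.2 hqh) fun i _ _ => hc0 _ _ _
      _ = (((range M).filter fun i => (D u).reads (indicator (G ω i)) ≠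
            (D u).reads (indicator (G ω (i + 1)))).card : ℝ) := by
          rw [card_filter]
          push_cast
          rw [hc]
      _ ≤ (s.card : ℝ) := by
          have : ((range M).filter fun i => (D u).reads (indicator (G ω i)) ≠
            (D u).reads (indicator (G ω (i + 1)))).card ≤ s.card := by
            apply card_le_card
            intro i hi
            rw [mem_filter, mem_range] at hi
            exact hs2 i hi.1 hi.2
          exact_mod_cast this
      _ ≤ T := by exact_mod_cast hs1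
  have hb : ∑ ω : Ω, ∑ a ∈ range q, ∑ u : U, (E u a ω + ∑ j ∈ range h, c u ω (a * h + j)) ≤
      Fintype.card U * (q * (p * Fintype.card Ω)) + Fintype.card U * (Fintype.card Ω * T) := by
    have e1 : ∑ ω : Ω, ∑ a ∈ range q, ∑ u : U, (E u a ω + ∑ j ∈ range h, c u ω (a * h + j)) =
        ∑ u : U, ((∑ a ∈ range q, ∑ ω : Ω, E u a ω) +
          ∑ ω : Ω, ∑ a ∈ range q, ∑ j ∈ range h, c u ω (a * h + j)) := by
      have e2 : ∀ ω : Ω, ∑ a ∈ range q, ∑ u : U,
          (E u a ω + ∑ j ∈ range h, c u ω (a * h + j)) =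
          ∑ u : U, ((∑ a ∈ range q, E u a ω) +
            ∑ a ∈ range q, ∑ j ∈ range h, c u ω (a * h + j)) := by
        intro ω
        rw [sum_comm]
        apply sum_congr rfl
        intro u _
        rw [sum_add_distrib]
      rw [sum_congr rfl fun ω _ => e2 ω, sum_comm]
      apply sum_congr rfl
      intro u _
      rw [sum_add_distrib]
      congr 1
      rw [sum_comm]
    rw [e1]
    calc ∑ u : U, ((∑ a ∈ range q, ∑ ω : Ω, E u a ω) +
          ∑ ω : Ω, ∑ a ∈ range q, ∑ j ∈ range h, c u ω (a * h + j))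
        ≤ ∑ _u : U, ((q * (p * Fintype.card Ω)) + (Fintype.card Ω * T : ℝ)) := by
          apply sum_le_sum
          intro u _
          apply add_le_add
          · calc ∑ a ∈ range q, ∑ ω : Ω, E u a ω ≤ ∑ _a ∈ range q, p * Fintype.card Ω :=
                  sum_le_sum (hEs u)
              _ = q * (p * Fintype.card Ω) := by simp
          · calc ∑ ω : Ω, ∑ a ∈ range q, ∑ j ∈ range h, c u ω (a * h + j)
                ≤ ∑ _ω : Ω, (T : ℝ) := sum_le_sum fun ω _ => hcs u ω
              _ = Fintype.card Ω * T := by simp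
      _ = _ := by
          rw [sum_const, card_univ, nsmul_eq_mul]
          ring
  have h5 := hsum.trans hb
  have h6 : (q : ℝ) ≤ Fintype.card U * (q * p + T) := by
    have e3 : Fintype.card U * (q * (p * Fintype.card Ω)) +
        Fintype.card U * (Fintype.card Ω * (T : ℝ)) =
        Fintype.card Ω * (Fintype.card U * (q * p + T)) := by ring
    rw [e3] at h5
    exact le_of_mul_le_mul_left h5 hΩ
  have hq0 : (0 : ℝ) < q := by exact_mod_cast hq1
  have hM0 : (0 : ℝ) < M := by
    have : 0 < M := by omega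
    exact_mod_cast this
  have h7 : (T : ℝ) / q ≤ 2 * h * T / M := by
    rw [div_le_div_iff₀ hq0 hM0]
    have h8 : (M : ℝ) ≤ 2 * h * q := by exact_mod_cast hMq
    calc (T : ℝ) * M ≤ T * (2 * h * q) := mul_le_mul_of_nonneg_left h8 (Nat.cast_nonneg _)
      _ = 2 * h * T * q := by ring
  have h9 : (1 : ℝ) ≤ Fintype.card U * (p + T / q) := by
    have e4 : (Fintype.card U : ℝ) * (p + T / q) = Fintype.card U * (q * p + T) / q := by
      field_simp
    rw [e4, le_div_iff₀ hq0, one_mul]
    exact h6
  refine h9.trans (mul_le_mul_of_nonneg_left ?_ (Nat.cast_nonneg _))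
  linarith

end Pool.Agent.T9h35.NS
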