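import Pool.Agent.T9h16.Rand.Bool
import Pool.Agent.T9h36.SQ.Upper
import Pool.Agent.T9h36.SN.Defs
import Pool.Agent.T9h34.Chain

/-!
# One NOT gate suffices for formulas with a given number of clauses
-/

set_option autoImplicit false

namespace Pool.Agent.T9h35.NS

open Finset Pool.Agent.T9h36.SN
open Pool.Agent.T9h34 (Circuit Gate Src pull)
open Pool.Agent.T9h36.SQ (OnlyNots toC ofC)

theorem onlyNots_subst {ι κ : Type} (σ : ι → κ ⊕ Bool) (C : Circuit ι) (hC : OnlyNots C) :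
    OnlyNots (C.subst σ) := by
  intro g hg hg2
  simp only [Circuit.subst, List.mem_map] at hg
  obtain ⟨g', hg', rfl⟩ := hg
  rw [Gate.isOther_subst] at hg2
  obtain ⟨a, ha⟩ := hC g' hg' hg2
  refine ⟨a.subst σ, ?_⟩
  rw [ha]
  rfl

theorem one_not {n : ℕ} (𝒞 : Finset (Clause n)) (C : Circuit (Clause n)) (hC : OnlyNots C)
    (e : ℕ) : ∃ C' : Circuit (Clause n), OnlyNots C' ∧ C'.numOther ≤ 1 ∧
      C'.size ≤ 2 * C.size + 10 * (𝒞.card + 1) ^ 3 ∧
      ∀ F ⊆ 𝒞, (C'.eval (indicator F) = true ↔ C.eval (indicator F) = true ∧ F.card = e) := by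
  classical
  obtain ⟨σ, hσ⟩ : ∃ σ : Clause n → {c // c ∈ 𝒞} ⊕ Bool,
      σ = fun c => if h : c ∈ 𝒞 then Sum.inl ⟨c, h⟩ else Sum.inr false := ⟨_, rfl⟩
  obtain ⟨σ', hσ'⟩ : ∃ σ' : {c // c ∈ 𝒞} → Clause n ⊕ Bool, σ' = fun c => Sum.inl c.1 :=
    ⟨_, rfl⟩
  have hN : OnlyNots (C.subst σ) := onlyNots_subst σ C hC
  obtain ⟨D, h1, h2, h3⟩ := Pool.Agent.T9h16.Rand.exists_one_not (toC (C.subst σ)) e
  refine ⟨(ofC D).subst σ', onlyNots_subst _ _ (Pool.Agent.T9h36.SQ.onlyNots_ofC D), ?_, ?_, ?_⟩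
  · rw [Circuit.numOther_subst, Pool.Agent.T9h36.SQ.numOther_ofC]
    exact h2
  · rw [Circuit.size_subst, Pool.Agent.T9h36.SQ.size_ofC]
    rw [Pool.Agent.T9h36.SQ.size_toC, Circuit.size_subst, Fintype.card_coe] at h1
    exact h1
  · intro F hF
    have h4 := h3 {c | c.1 ∈ F}
    have e1 : ((ofC D).subst σ').eval (indicator F) = true ↔
        Pool.Agent.T9h16.Rand.Acc' D {c : {c // c ∈ 𝒞} | c.1 ∈ F} := by
      unfold Pool.Agent.T9h16.Rand.Acc'
      rw [Circuit.eval_subst, Pool.Agent.T9h36.SQ.eval_ofC]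
      have h5 : pull σ' (indicator F) = fun c =>
          @decide (c ∈ {c : {c // c ∈ 𝒞} | c.1 ∈ F}) (Classical.propDecidable _) := by
        funext c
        rw [hσ']
        simp [pull, indicator]
      rw [h5]
    have e2 : Pool.Agent.T9h16.Rand.Acc' (toC (C.subst σ)) {c : {c // c ∈ 𝒞} | c.1 ∈ F} ↔
        C.eval (indicator F) = true := by
      unfold Pool.Agent.T9h16.Rand.Acc'
      rw [Pool.Agent.T9h36.SQ.eval_toC _ hN, Circuit.eval_subst]
      have h5 : pull σ (fun c => @decide (c ∈ {c : {c // c ∈ 𝒞} | c.1 ∈ F})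
          (Classical.propDecidable _)) = indicator F := by
        funext c
        rw [hσ]
        by_cases hc : c ∈ 𝒞
        · simp [pull, indicator, hc]
        · have : c ∉ F := fun h => hc (hF h)
          simp [pull, indicator, hc, this]
      rw [h5]
    have e3 : ({c : {c // c ∈ 𝒞} | c.1 ∈ F} : Set {c // c ∈ 𝒞}).ncard = F.card := by
      have h5 : Subtype.val '' {c : {c // c ∈ 𝒞} | c.1 ∈ F} = (F : Set (Clause n)) := by
        ext c
        simp only [Set.mem_image, Set.mem_ofPred_eq, Subtype.exists, exists_and_right,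
          exists_eq_right, mem_coe]
        constructor
        · rintro ⟨_, h⟩
          exact h
        · intro h
          exact ⟨hF h, h⟩
      rw [← Set.ncard_image_of_injective _ Subtype.val_injective, h5, Set.ncard_coe_finset]
    rw [e1, h4, e2, e3]

end Pool.Agent.T9h35.NS
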