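import Pool.Agent.T9h35.NS.Cover
import Pool.Agent.T9h35.NS.OneNot
import Pool.Agent.T9h36.SQ.Exact

/-!
# Nondeterministic circuits of exponential size for unsatisfiability
-/

set_option autoImplicit false

namespace Pool.Agent.T9h35.NS

open Finset Pool.Agent.T9h36.SN
open Pool.Agent.T9h34 (Circuit)
open Pool.Agent.T9h36.SQ (OnlyNots)

theorem final (ε : ℝ) (hε : 0 < ε) : ∃ A : ℕ, ∀ n W g : ℕ, W ≤ n →
    g + A * (Nat.log 2 n + 1) ≤ W →
    ∃ 𝒞 : Finset (Clause n), 𝒞.card ≤ 2 ^ W ∧ (∀ c ∈ 𝒞, c.card ≤ W) ∧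
      (∃ (Ω : Type) (_ : Fintype Ω) (_ : Nonempty Ω) (G : Ω → ℕ → Finset (Clause n)),
        (∀ ω i, G ω i ⊆ 𝒞 ∧ Unsat (G ω i) ∧ G ω (i + 1) ⊆ G ω i) ∧
        ∀ C : Circuit (Clause n), (∀ F ⊆ 𝒞, ¬ Unsat F → C.eval (indicator F) = false) →
          ∀ i h : ℕ, i + h ≤ 2 ^ g →
          prob (fun ω => C.eval (indicator (G ω (i + h))) = true ∧ ∀ j < h,
            C.reads (indicator (G ω (i + j))) = C.reads (indicator (G ω (i + j + 1)))) ≤
          ((C.size + C.numReads + 1 : ℕ) / (2 : ℝ) ^ ((1 - ε) * ((n : ℝ) - g))) ^ h) ∧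
      (∀ (U : Type) [Fintype U] (D : U → Circuit (Clause n)) (N T : ℕ),
        (∀ u, (D u).size + (D u).numReads + 1 ≤ N ∧
          ((OnlyNots (D u) ∧ 2 ^ (D u).numOther ≤ T + 1) ∨
            ∃ lev, IsLevel (D u) lev ∧ levelProduct (D u) lev ≤ T + 1)) →
        (∀ F ⊆ 𝒞, Unsat F ↔ ∃ u, (D u).eval (indicator F) = true) →
        ∀ h : ℕ, 1 ≤ h → h ≤ 2 ^ g →
          1 ≤ Fintype.card U *
            ((N / (2 : ℝ) ^ ((1 - ε) * ((n : ℝ) - g))) ^ h + 2 * h * T / 2 ^ g)) ∧
      ∀ (C : Circuit (Clause n)) (e : ℕ), OnlyNots C →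
        ∃ C' : Circuit (Clause n), OnlyNots C' ∧ C'.numOther ≤ 1 ∧
          C'.size ≤ 2 * C.size + 10 * (2 ^ W + 1) ^ 3 ∧
          ∀ F ⊆ 𝒞, (C'.eval (indicator F) = true ↔ C.eval (indicator F) = true ∧ F.card = e) := by
  classical
  obtain ⟨A, -, hA⟩ := main_window ε hε
  refine ⟨A, fun n W g hWn hg => ?_⟩
  obtain ⟨𝒞, h1, h2, Ω, iΩ, nΩ, G, h3, h4⟩ := hA n W g hWn hg
  refine ⟨𝒞, h1, h2, ⟨Ω, iΩ, nΩ, G, h3, h4⟩, ?_, ?_⟩
  · intro U _ D N T hD hdec h hh1 hh2
    have hcov := cover (M := 2 ^ g) (h := h) (T := T)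
      ((N / (2 : ℝ) ^ ((1 - ε) * ((n : ℝ) - g))) ^ h) G U D hh1 hh2 (by
        intro u a ha
        refine (h4 (D u) (fun F hF hsat => ?_) a h ha).trans ?_
        · by_contra hcon
          rw [Bool.not_eq_false] at hcon
          exact hsat ((hdec F hF).2 ⟨u, hcon⟩)
        · apply pow_le_pow_left₀ (by positivity)
          apply div_le_div_of_nonneg_right _ (by positivity)
          exact_mod_cast (hD u).1) (by
        intro ω i
        exact (hdec _ (h3 ω i).1).1 (h3 ω i).2.1) (by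
        intro u ω
        refine ⟨(range (2 ^ g)).filter fun i => (D u).reads (indicator (G ω i)) ≠
          (D u).reads (indicator (G ω (i + 1))), ?_, ?_⟩
        · have hanti : ∀ i e, indicator (G ω (i + 1)) e = true → indicator (G ω i) e = true := by
            intro i e he
            simp only [indicator, decide_eq_true_eq] at he ⊢
            exact (h3 ω i).2.2 he
          rcases (hD u).2 with ⟨h5, h6⟩ | ⟨lev, h5, h6⟩
          · have h7 := changes_le_prod (D u) _ (Pool.Agent.T9h36.SQ.isLevel_cnt (D u))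
              (fun i => indicator (G ω i)) hanti (2 ^ g)
            have h8 := Pool.Agent.T9h36.SQ.levelProduct_cnt (D u) h5
            have h9 := (h7.trans h8).trans h6
            convert Nat.le_of_succ_le_succ h9
          · have h7 := changes_le_prod (D u) lev h5 (fun i => indicator (G ω i)) hanti (2 ^ g)
            have h9 := h7.trans h6
            convert Nat.le_of_succ_le_succ h9
        · intro i hi hne
          rw [mem_filter, mem_range]
          exact ⟨hi, hne⟩)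
    have e1 : ((2 ^ g : ℕ) : ℝ) = 2 ^ g := by push_cast; rfl
    rw [e1] at hcov
    exact hcov
  · intro C e hC
    obtain ⟨C', c1, c2, c3, c4⟩ := one_not 𝒞 C hC e
    refine ⟨C', c1, c2, c3.trans ?_, c4⟩
    apply Nat.add_le_add_left
    apply Nat.mul_le_mul_left
    exact Nat.pow_le_pow_left (by omega) 3

end Pool.Agent.T9h35.NS
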