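import Pool.Agent.T9h36.SN.Path

/-!
# The first blocks are filled one after the other: acceptance without a change of the reads
-/

set_option autoImplicit false

namespace Pool.Agent.T9h35.NS

open Finset
open Pool.Agent.T9h36.SN
open Pool.Agent.T9h34 (Circuit exists_detector)
open Pool.Agent.T9h16 (Leaf)

section
variable {ι E K T Λ : Type} [Fintype ι] [DecidableEq ι] (Ng : K → Set E) (Pg : T → Set E)

theorem pathY_update_le (ω : ι → K) (β : ι) (k : K) {J : ℕ}
    (h : J ≤ (Fintype.equivFin ι β).val) :
    pathY Ng (Function.update ω β k) J = pathY Ng ω J := by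
  funext β'
  by_cases hb : β' = β
  · subst hb
    rw [pathY, pathY, if_neg (by omega), if_neg (by omega)]
  · rw [pathY, pathY, Function.update_of_ne hb]

/-- The circuit rejects the input number `i + h`, and its further gates read the same values on the
inputs number `i, ..., i + h`. -/
def Ev (C : Circuit Λ) (X : (ι → Set E) → Λ → Bool) (i h : ℕ) (ω : ι → K) : Prop :=
  C.eval (X (pathY Ng ω (i + h))) = false ∧
    ∀ j < h, C.reads (X (pathY Ng ω (i + j))) = C.reads (X (pathY Ng ω (i + j + 1)))

theorem window_step [Fintype K] [Nonempty K] [Fintype T] [Nonempty T] (N : ℕ) (δ : ℝ)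
    (hard : ∀ (D : Circuit Λ), (∀ g ∈ D.gates, g.IsMono) → D.size ≤ N →
      ∀ x : Set E → Λ → Bool, (∀ a, Leaf (fun z => x z a = true)) →
      ((univ.filter fun t : T => D.eval (x (Pg t)) = true).card : ℝ) / Fintype.card T +
      ((univ.filter fun k : K => D.eval (x (Ng k)) = false).card : ℝ) / Fintype.card K ≤ 1 + δ)
    (C : Circuit Λ) (hs : C.size + C.numReads + 1 ≤ N)
    (X : (ι → Set E) → Λ → Bool)
    (mono : ∀ y y', (∀ i, y i ⊆ y' i) → ∀ a, X y a = true → X y' a = true)
    (leaf : ∀ e, (∃ t : Bool, ∀ y, X y e = t) ∨ ∃ i b, ∀ y, X y e = true ↔ b ∈ y i)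
    (sound : ∀ y β t, C.eval (X (Function.update y β (Pg t))) = true)
    (i h : ℕ) (hih : i + h + 1 ≤ Fintype.card ι) :
    open Classical in
    (∑ ω : ι → K, if Ev Ng C X i (h + 1) ω then (1 : ℝ) else 0) ≤
      δ * ∑ ω : ι → K, if Ev Ng C X i h ω then (1 : ℝ) else 0 := by
  classical
  have hK : (0 : ℝ) < Fintype.card K := by exact_mod_cast Fintype.card_pos
  have hT : (0 : ℝ) < Fintype.card T := by exact_mod_cast Fintype.card_pos
  obtain ⟨β, hβ⟩ : ∃ β : ι, (Fintype.equivFin ι β).val = i + h :=
    ⟨(Fintype.equivFin ι).symm ⟨i + h, by omega⟩, by simp⟩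
  have hone : ∀ ω : ι → K,
      (∑ k : K, if Ev Ng C X i (h + 1) (Function.update ω β k) then (1 : ℝ) else 0) ≤
        Fintype.card K * (δ * if Ev Ng C X i h ω then (1 : ℝ) else 0) := by
    intro ω
    obtain ⟨y, hy⟩ : ∃ y, y = pathY Ng ω (Fintype.equivFin ι β).val := ⟨_, rfl⟩
    have hyβ : y β = ∅ := by
      rw [hy, pathY, if_neg (lt_irrefl _)]
    have hsub : ∀ z i, y i ⊆ Function.update y β z i := by
      intro z i
      by_cases hi : i = β
      · subst hi
        rw [hyβ]
        exact Set.empty_subset _
      · rw [Function.update_of_ne hi]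
    have hleaf : ∀ a, Leaf (fun z => X (Function.update y β z) a = true) := by
      intro a
      rcases leaf a with ⟨t, ht⟩ | ⟨i, v, hv⟩
      · refine Or.inr ⟨t = true, fun z => ?_⟩
        change X _ a = true ↔ _
        rw [ht]
      · by_cases hib : i = β
        · subst hib
          left
          refine ⟨v, fun z => ?_⟩
          change X _ a = true ↔ _
          rw [hv, Function.update_self]
        · right
          refine ⟨v ∈ y i, fun z => ?_⟩
          change X _ a = true ↔ _
          rw [hv, Function.update_of_ne hib]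
    obtain ⟨D, hD1, hD2, hD3, hD4⟩ := exists_detector C (X y)
    have e1 : ∀ k, pathY Ng (Function.update ω β k) (i + h + 1) =
        Function.update y β (Ng k) := by
      intro k
      rw [← hβ, pathY_succ, pathY_update, Function.update_self, hy]
    have e2 : ∀ k, ∀ j ≤ h, pathY Ng (Function.update ω β k) (i + j) = pathY Ng ω (i + j) := by
      intro k j hj
      exact pathY_update_le Ng ω β k (by omega)
    have e3 : y = pathY Ng ω (i + h) := by rw [hy, hβ]
    -- what the event implies
    have himp : ∀ k, Ev Ng C X i (h + 1) (Function.update ω β k) →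
        Ev Ng C X i h ω ∧ D.eval (X (Function.update y β (Ng k))) = false := by
      rintro k ⟨h1, h2⟩
      have h3 := h2 h (Nat.lt_succ_self h)
      rw [e1, e2 k h le_rfl, ← e3] at h3
      rw [show i + (h + 1) = i + h + 1 by ring, e1] at h1
      have h4 : D.eval (X (Function.update y β (Ng k))) = false := by
        by_contra hcon
        rw [Bool.not_eq_false] at hcon
        have := hD4 _ h3.symm hcon
        rw [h1] at this
        exact absurd this (by simp)
      refine ⟨⟨?_, ?_⟩, h4⟩
      · have h5 : D.eval (X y) = false := by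
          by_contra hcon
          rw [Bool.not_eq_false] at hcon
          have := Circuit.eval_mono (fun a ha => mono _ _ (hsub (Ng k)) a ha) D hD1 hcon
          rw [h4] at this
          exact absurd this (by simp)
        rw [← e3]
        exact (hD3 _ (fun _ h => h) h5).2
      · intro j hj
        have h5 := h2 j (by omega)
        rw [e2 k j hj.le, show i + j + 1 = i + (j + 1) by ring, e2 k (j + 1) hj] at h5
        exact h5
    by_cases hev : Ev Ng C X i h ω
    · rw [if_pos hev, mul_one]
      have h1 := hard D hD1 (hD2.trans hs) (fun z => X (Function.update y β z)) hleaf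
      have h2 : (univ.filter fun t : T => D.eval (X (Function.update y β (Pg t))) = true) =
          univ := by
        apply filter_true_of_mem
        intro t _
        by_contra hcon
        rw [Bool.not_eq_true] at hcon
        have := (hD3 _ (fun a ha => mono _ _ (hsub _) a ha) hcon).2
        rw [sound y β t] at this
        exact absurd this (by simp)
      rw [h2, card_univ, div_self hT.ne'] at h1
      have h3 : ((univ.filter fun k : K => D.eval (X (Function.update y β (Ng k))) = false).card
          : ℝ) / Fintype.card K ≤ δ := by linarith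
      rw [div_le_iff₀ hK] at h3
      calc (∑ k : K, if Ev Ng C X i (h + 1) (Function.update ω β k) then (1 : ℝ) else 0)
          ≤ ∑ k : K, if D.eval (X (Function.update y β (Ng k))) = false then (1 : ℝ) else 0 := by
            apply sum_le_sum
            intro k _
            by_cases hk : Ev Ng C X i (h + 1) (Function.update ω β k)
            · rw [if_pos hk, if_pos (himp k hk).2]
            · rw [if_neg hk]
              split_ifs <;> norm_num
        _ = ((univ.filter fun k : K => D.eval (X (Function.update y β (Ng k))) = false).card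
              : ℝ) := by
            rw [card_filter]
            push_cast
            rfl
        _ ≤ Fintype.card K * δ := by linarith
    · rw [if_neg hev, mul_zero, mul_zero]
      apply le_of_eq
      apply sum_eq_zero
      intro k _
      rw [if_neg]
      exact fun hk => hev (himp k hk).1
  have hsum := sum_le_sum fun ω (_ : ω ∈ (univ : Finset (ι → K))) => hone ω
  rw [sum_update β (fun ω => if Ev Ng C X i (h + 1) ω then (1 : ℝ) else 0), ← mul_sum,
    ← mul_sum] at hsum
  exact le_of_mul_le_mul_left hsum hK

theorem window [Fintype K] [Nonempty K] [Fintype T] [Nonempty T] (N : ℕ) (δ : ℝ) (hδ : 0 ≤ δ)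
    (hard : ∀ (D : Circuit Λ), (∀ g ∈ D.gates, g.IsMono) → D.size ≤ N →
      ∀ x : Set E → Λ → Bool, (∀ a, Leaf (fun z => x z a = true)) →
      ((univ.filter fun t : T => D.eval (x (Pg t)) = true).card : ℝ) / Fintype.card T +
      ((univ.filter fun k : K => D.eval (x (Ng k)) = false).card : ℝ) / Fintype.card K ≤ 1 + δ)
    (C : Circuit Λ) (hs : C.size + C.numReads + 1 ≤ N)
    (X : (ι → Set E) → Λ → Bool)
    (mono : ∀ y y', (∀ i, y i ⊆ y' i) → ∀ a, X y a = true → X y' a = true)
    (leaf : ∀ e, (∃ t : Bool, ∀ y, X y e = t) ∨ ∃ i b, ∀ y, X y e = true ↔ b ∈ y i)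
    (sound : ∀ y β t, C.eval (X (Function.update y β (Pg t))) = true)
    (i h : ℕ) (hih : i + h ≤ Fintype.card ι) :
    open Classical in
    (∑ ω : ι → K, if Ev Ng C X i h ω then (1 : ℝ) else 0) ≤ δ ^ h * Fintype.card (ι → K) := by
  classical
  induction h with
  | zero =>
    rw [pow_zero, one_mul]
    calc (∑ ω : ι → K, if Ev Ng C X i 0 ω then (1 : ℝ) else 0) ≤ ∑ _ω : ι → K, (1 : ℝ) := by
          apply sum_le_sum
          intro ω _
          split_ifs <;> norm_num
      _ = Fintype.card (ι → K) := by simp
  | succ h ih =>
    refine (window_step Ng Pg N δ hard C hs X mono leaf sound i h (by omega)).trans ?_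
    rw [pow_succ, mul_comm (δ ^ h), mul_assoc]
    exact mul_le_mul_of_nonneg_left (ih (by omega)) hδ

end

end Pool.Agent.T9h35.NS
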